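import Pool.Agent.Helper53.TClosed

set_option autoImplicit false

namespace Pool.Agent.Results.MP_2f0074_al.TwoGenerated

open OnePoint

/-- The circle is `ℝ ∪ {∞}`. `T` is the set of its homeomorphisms `f` that are piecewise
`PSL₂(ℤ)`: there is a finite set `B` of rational numbers such that on every interval `I` of the
real line avoiding `B` the map `f` agrees with the Moebius map of a matrix `g ∈ SL₂(ℤ)`. -/
def T : Set (OnePoint ℝ ≃ₜ OnePoint ℝ) :=
  {f | ∃ B : Finset ℚ, ∀ I : Set ℝ, I.OrdConnected → (∀ q ∈ B, (q : ℝ) ∉ I) →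
    ∃ g : Matrix.SpecialLinearGroup (Fin 2) ℤ, ∀ t ∈ I,
      f (t : OnePoint ℝ) = Matrix.SpecialLinearGroup.mapGL ℝ g • (t : OnePoint ℝ)}

/-- `s` is the homeomorphism of the problem: it fixes `∞` and is given on the line by
`t`, `2 t / (1 + t)`, `2 / (3 - t)`, `t` on `t ≤ 0`, `[0, 1]`, `[1, 2]`, `2 ≤ t`. -/
def IsS (s : OnePoint ℝ ≃ₜ OnePoint ℝ) : Prop :=
  s ∞ = ∞ ∧
  (∀ t : ℝ, t ≤ 0 → s (t : OnePoint ℝ) = ((t : ℝ) : OnePoint ℝ)) ∧
  (∀ t : ℝ, 0 ≤ t → t ≤ 1 → s (t : OnePoint ℝ) = ((2 * t / (1 + t) : ℝ) : OnePoint ℝ)) ∧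
  (∀ t : ℝ, 1 ≤ t → t ≤ 2 → s (t : OnePoint ℝ) = ((2 / (3 - t) : ℝ) : OnePoint ℝ)) ∧
  (∀ t : ℝ, 2 ≤ t → s (t : OnePoint ℝ) = ((t : ℝ) : OnePoint ℝ))

/-- The homeomorphism `s` exists, and the group generated by `T` and `s` is generated by two
elements. -/
theorem result :
    (∃ s : OnePoint ℝ ≃ₜ OnePoint ℝ, IsS s) ∧
    ∀ s : OnePoint ℝ ≃ₜ OnePoint ℝ, IsS s →
      ∃ a b : OnePoint ℝ ≃ₜ OnePoint ℝ,
        Subgroup.closure {a, b} = Subgroup.closure (T ∪ {s}) := by
  have h0 : IsS (Helper53.io Helper53.SR) := by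
    refine ⟨rfl, ?_, ?_, ?_, ?_⟩
    · intro t ht
      rw [Helper53.io_coe, Helper53.SR_apply, Helper53.SF_1 ht]
    · intro t h1 h2
      rw [Helper53.io_coe, Helper53.SR_apply, Helper53.SF_2 h1 h2]
    · intro t h1 h2
      rw [Helper53.io_coe, Helper53.SR_apply, Helper53.SF_3 h1 h2]
    · intro t ht
      rw [Helper53.io_coe, Helper53.SR_apply, Helper53.SF_4 ht]
  refine ⟨⟨_, h0⟩, ?_⟩
  intro s hs
  have hss : s = Helper53.io Helper53.SR := by
    ext z
    induction z using OnePoint.rec with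
    | infty => rw [hs.1, h0.1]
    | coe t =>
      rcases le_total t 0 with h1 | h1
      · rw [hs.2.1 t h1, h0.2.1 t h1]
      rcases le_total t 1 with h2 | h2
      · rw [hs.2.2.1 t h1 h2, h0.2.2.1 t h1 h2]
      rcases le_total t 2 with h3 | h3
      · rw [hs.2.2.2.1 t h2 h3, h0.2.2.2.1 t h2 h3]
      · rw [hs.2.2.2.2 t h3, h0.2.2.2.2 t h3]
  subst hss
  refine ⟨Helper53.rot, Helper53.io Helper53.b0, ?_⟩
  obtain ⟨m1, m2, m3⟩ := Helper53.mem_closure
  have hT : T = Helper53.PPSL := rfl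
  apply le_antisymm
  · have hPP : ∀ f ∈ Helper53.PPSL, f ∈ Subgroup.closure (T ∪ {Helper53.io Helper53.SR}) :=
      fun f hf => Subgroup.subset_closure (Or.inl hf)
    rw [Subgroup.closure_le]
    rintro x (rfl | hx)
    · exact hPP _ Helper53.rot_mem
    · rw [Set.mem_singleton_iff] at hx
      subst hx
      set H := Subgroup.closure (T ∪ {Helper53.io Helper53.SR}) with hH
      have ht : Helper53.tau ∈ H := hPP _ Helper53.tau_mem
      have hX : Helper53.XX ∈ H := hPP _ Helper53.XX_mem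
      have hSR : Helper53.io Helper53.SR ∈ H := Subgroup.subset_closure (Or.inr rfl)
      have htau : Helper53.io Helper53.tauR = Helper53.tau := rfl
      have hXR : Helper53.io Helper53.XR = Helper53.XX := rfl
      have hxj : ∀ j : ℕ, Helper53.io (Helper53.xj j) ∈ H := by
        intro j
        rw [Helper53.xj, map_mul, map_mul, map_inv, map_pow, htau, hXR]
        exact H.mul_mem (H.mul_mem (H.pow_mem ht j) hX) (H.inv_mem (H.pow_mem ht j))
      have huu : Helper53.io Helper53.uu ∈ H := by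
        rw [Helper53.uu, map_mul, map_inv]
        exact H.mul_mem (H.inv_mem (hxj _)) (hxj _)
      have hvv : Helper53.io Helper53.vv' ∈ H := by
        rw [Helper53.vv', Helper53.vv, map_mul, map_mul, map_mul, map_inv, map_inv, map_pow, htau]
        exact H.mul_mem (H.mul_mem (H.pow_mem ht 6) (H.mul_mem (H.inv_mem (hxj _)) (hxj _)))
          (H.inv_mem (H.pow_mem ht 6))
      have hss : Helper53.io Helper53.ss ∈ H := by
        rw [Helper53.ss, Helper53.sm, map_mul, map_mul, map_mul, map_mul, map_inv, map_inv,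
          map_pow, map_pow, htau]
        exact H.mul_mem (H.mul_mem (H.pow_mem ht 6) (H.mul_mem (H.mul_mem (H.pow_mem ht 4) hSR)
          (H.inv_mem (H.pow_mem ht 4)))) (H.inv_mem (H.pow_mem ht 6))
      show Helper53.io Helper53.b0 ∈ H
      rw [Helper53.b0, map_mul, map_mul]
      exact H.mul_mem huu (H.mul_mem hvv hss)
  · rw [Subgroup.closure_le]
    rintro x (hx | hx)
    · have h1 := Helper53.mem_closure_of_PPSL (hT ▸ hx)
      have h2 : Subgroup.closure {Helper53.tau, Helper53.XX, Helper53.rot} ≤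
          Subgroup.closure {Helper53.rot, Helper53.io Helper53.b0} := by
        rw [Subgroup.closure_le]
        rintro y (rfl | rfl | hy)
        · exact m1
        · exact m2
        · rw [Set.mem_singleton_iff] at hy
          subst hy
          exact Subgroup.subset_closure (by simp)
      exact h2 h1
    · rw [Set.mem_singleton_iff] at hx
      subst hx
      exact m3

end Pool.Agent.Results.MP_2f0074_al.TwoGenerated
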